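import Pool.Agent.H770.GS.TA
import Pool.Graph.R_seed8.Helper82.GC.B4

/-!
# Project TA: continuity of the section function (helper376 for helper770)
-/

set_option autoImplicit false

open MeasureTheory Set

namespace Pool.Agent.H376.GScont

open Pool.Agent.Helper82.GC Pool.Agent.H770.GS

lemma phi_continuous {r : ℝ} (hr : 0 < r) : Continuous (phi r) :=
  continuous_iff_continuousAt.mpr fun t => (phi_hasDerivAt hr t).continuousAt

/-- the lower bound of the first coordinate -/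
lemma first_ge {k : ℕ} {θ : EuclideanSpace ℝ (Fin (k + 2))} (hθ : θ ∈ KK k) :
    0 ≤ θ 0 ∧ 1 ≤ ((k : ℝ) + 2) * θ 0 ^ 2 := by
  obtain ⟨h1, _, h3⟩ := hθ
  have h0 : 0 ≤ θ 0 := le_trans (abs_nonneg _) (h3 0)
  refine ⟨h0, ?_⟩
  have h4 : ‖θ‖ ^ 2 = 1 := by rw [h1]; norm_num
  rw [EuclideanSpace.norm_sq_eq] at h4
  calc (1 : ℝ) = ∑ i, ‖θ i‖ ^ 2 := h4.symm
    _ ≤ ∑ _i : Fin (k + 2), θ 0 ^ 2 := by
        apply Finset.sum_le_sum
        intro i _
        have h5 := h3 i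
        rw [Real.norm_eq_abs]
        exact pow_le_pow_left₀ (abs_nonneg _) h5 2
    _ = ((k : ℝ) + 2) * θ 0 ^ 2 := by
        rw [Finset.sum_const, Finset.card_univ, Fintype.card_fin, nsmul_eq_mul]
        push_cast
        ring

/-- the integrand -/
noncomputable def fI {k : ℕ} (r : ℝ) (θ : EuclideanSpace ℝ (Fin (k + 2))) (t : ℝ) : ℝ :=
  ∏ i, phi r (Real.sqrt (θ i ^ 2) * t)

/-- the constant of the bound -/
noncomputable def cB (k : ℕ) (r : ℝ) : ℝ := 1 + 4 * ((k : ℝ) + 2) / Zr r ^ 2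

lemma fI_bound {k : ℕ} {r : ℝ} (hr : 0 < r) {θ : EuclideanSpace ℝ (Fin (k + 2))} (hθ : θ ∈ KK k)
    (t : ℝ) : ‖fI r θ t‖ ≤ cB k r * (1 + t ^ 2)⁻¹ := by
  obtain ⟨h0, h1⟩ := first_ge hθ
  have hZ := Zr_pos hr
  have hθ0 : 0 < θ 0 := by
    rcases h0.lt_or_eq with h | h
    · exact h
    · rw [← h] at h1
      norm_num at h1
  have e0 : Real.sqrt (θ 0 ^ 2) = θ 0 := Real.sqrt_sq h0
  have e1 : Real.sqrt (θ 1 ^ 2) = θ 0 := by
    rw [← hθ.2.1]
    exact Real.sqrt_sq h0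
  have hp : ‖fI r θ t‖ ≤ phi r (θ 0 * t) ^ 2 := by
    unfold fI
    rw [Fin.prod_univ_succ, Fin.prod_univ_succ, Real.norm_eq_abs, abs_mul, abs_mul]
    have h2 : |∏ i : Fin k, phi r (Real.sqrt (θ i.succ.succ ^ 2) * t)| ≤ 1 := by
      rw [Finset.abs_prod]
      exact Finset.prod_le_one (fun i _ => abs_nonneg _) (fun i _ => abs_phi_le_one hr _)
    have h3 : |phi r (Real.sqrt (θ 0 ^ 2) * t)| = |phi r (θ 0 * t)| := by rw [e0]
    have h4 : |phi r (Real.sqrt (θ (Fin.succ 0) ^ 2) * t)| = |phi r (θ 0 * t)| := by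
      have : (Fin.succ 0 : Fin (k + 2)) = 1 := rfl
      rw [this, e1]
    rw [h3, h4]
    calc |phi r (θ 0 * t)| * (|phi r (θ 0 * t)| *
          |∏ i : Fin k, phi r (Real.sqrt (θ i.succ.succ ^ 2) * t)|)
        ≤ |phi r (θ 0 * t)| * (|phi r (θ 0 * t)| * 1) := by gcongr
      _ = phi r (θ 0 * t) ^ 2 := by rw [mul_one, ← sq, sq_abs]
  have h5 : phi r (θ 0 * t) ^ 2 ≤ 1 := by
    have := abs_phi_le_one hr (θ 0 * t)
    rw [← sq_abs]
    nlinarith [abs_nonneg (phi r (θ 0 * t))]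
  have h6 : phi r (θ 0 * t) ^ 2 * t ^ 2 ≤ 4 * ((k : ℝ) + 2) / Zr r ^ 2 := by
    by_cases ht : t = 0
    · rw [ht]
      have : 0 ≤ 4 * ((k : ℝ) + 2) / Zr r ^ 2 := by positivity
      simpa using this
    · have h7 := phi_decay hr (mul_ne_zero hθ0.ne' ht)
      have h8 : 0 < |θ 0 * t| := abs_pos.mpr (mul_ne_zero hθ0.ne' ht)
      rw [le_div_iff₀ (by positivity)] at h7
      have h9 : (|phi r (θ 0 * t)| * (Zr r * |θ 0 * t|)) ^ 2 ≤ 2 ^ 2 :=
        pow_le_pow_left₀ (by positivity) h7 2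
      rw [mul_pow, mul_pow, sq_abs, sq_abs, mul_pow] at h9
      rw [le_div_iff₀ (by positivity)]
      have h10 : 0 ≤ phi r (θ 0 * t) ^ 2 * (Zr r ^ 2 * t ^ 2) := by positivity
      calc phi r (θ 0 * t) ^ 2 * t ^ 2 * Zr r ^ 2
          = (phi r (θ 0 * t) ^ 2 * (Zr r ^ 2 * t ^ 2)) * 1 := by ring
        _ ≤ (phi r (θ 0 * t) ^ 2 * (Zr r ^ 2 * t ^ 2)) * (((k : ℝ) + 2) * θ 0 ^ 2) := by gcongr
        _ = ((k : ℝ) + 2) * (phi r (θ 0 * t) ^ 2 * (Zr r ^ 2 * (θ 0 ^ 2 * t ^ 2))) := by ring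
        _ ≤ ((k : ℝ) + 2) * 2 ^ 2 := by gcongr
        _ = 4 * ((k : ℝ) + 2) := by ring
  refine hp.trans ?_
  have h11 : 0 < 1 + t ^ 2 := by positivity
  rw [← div_eq_mul_inv, le_div_iff₀ h11]
  unfold cB
  linarith

lemma fI_cont_t {k : ℕ} {r : ℝ} (hr : 0 < r) (θ : EuclideanSpace ℝ (Fin (k + 2))) :
    Continuous (fI r θ) := by
  unfold fI
  apply continuous_finsetProd
  intro i _
  exact (phi_continuous hr).comp (by fun_prop)

lemma fI_cont_θ {k : ℕ} {r : ℝ} (hr : 0 < r) (t : ℝ) :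
    Continuous (fun θ : EuclideanSpace ℝ (Fin (k + 2)) => fI r θ t) := by
  unfold fI
  apply continuous_finsetProd
  intro i _
  exact (phi_continuous hr).comp (by fun_prop)

lemma bound_int (k : ℕ) (r : ℝ) : Integrable (fun t : ℝ => cB k r * (1 + t ^ 2)⁻¹) :=
  integrable_inv_one_add_sq.const_mul _

lemma fI_int {k : ℕ} {r : ℝ} (hr : 0 < r) {θ : EuclideanSpace ℝ (Fin (k + 2))} (hθ : θ ∈ KK k) :
    Integrable (fI r θ) :=
  (bound_int k r).mono' (fI_cont_t hr θ).aestronglyMeasurable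
    (Filter.Eventually.of_forall (fI_bound hr hθ))

lemma Asl_eq {k : ℕ} {r : ℝ} (hr : 0 < r) {θ : EuclideanSpace ℝ (Fin (k + 2))} (hθ : θ ∈ KK k) :
    Asl r θ 0 = Zr r ^ (k + 2) / (2 * Real.pi) * ∫ t, fI r θ t := by
  have h := slice_eq_J hr θ hθ.1 (fI_int hr hθ)
  unfold Asl
  simp only [zero_smul, add_zero]
  exact h

/-- continuity of the section function on `KK k` -/
theorem cont : S_cont := by
  intro k r hr
  have h : ContinuousOn (fun θ : EuclideanSpace ℝ (Fin (k + 2)) =>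
      Zr r ^ (k + 2) / (2 * Real.pi) * ∫ t, fI r θ t) (KK k) := by
    refine continuousOn_const.mul ?_
    exact continuousOn_of_dominated (fun θ _ => (fI_cont_t hr θ).aestronglyMeasurable)
      (fun θ hθ => Filter.Eventually.of_forall (fI_bound hr hθ)) (bound_int k r)
      (Filter.Eventually.of_forall fun t => (fI_cont_θ hr t).continuousOn)
  exact h.congr fun θ hθ => Asl_eq hr hθ

end Pool.Agent.H376.GScont
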