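import Pool.Agent.H676.ED.Stm

/-! # ED-FAR: all bijections have many errors -/

set_option autoImplicit false

namespace Pool.Agent.H376.EDFAR

open Finset Pool.Agent.W893.PR Pool.Agent.H676.ED

theorem sg_cases (a : ZMod 2) : (a = 0 ∧ sg a = 1) ∨ (a = 1 ∧ sg a = -1) := by
  unfold sg
  have h1 : ∀ a : ZMod 2, a ≠ 0 → a = 1 := by decide
  by_cases h : a = 0
  · exact Or.inl ⟨h, if_pos h⟩
  · exact Or.inr ⟨h1 a h, if_neg h⟩

theorem reindex {X : Type} [Fintype X] (f : Equiv.Perm X) (G : X → X → ℝ) :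
    ∑ u, ∑ v, G u v = ∑ u, ∑ v, G (f u) (f v) := by
  rw [← Equiv.sum_comp f (fun u => ∑ v, G u v)]
  refine sum_congr rfl fun u _ => ?_
  rw [← Equiv.sum_comp f (fun v => G (f u) v)]

theorem sg_abs (a : ZMod 2) : |sg a| = 1 := by
  rcases sg_cases a with ⟨_, h⟩ | ⟨_, h⟩ <;> rw [h] <;> norm_num

section
variable {F d : ℕ} (E : SimpleGraph (Fin F)) (c : Fin F → Fin F → Fd d)

open Classical in
/-- the indicator of the pattern -/
noncomputable def ee (u v : VX F d) : ℝ := if E.Adj u.1 v.1 then 1 else 0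

/-- the sign of the left side of the equation -/
noncomputable def chi (u v : VX F d) : ℝ := sg (dot (c u.1 v.1) u.2 + dot (c v.1 u.1) v.2)

/-- the sign of the equation -/
noncomputable def AA (s : Sym2 (Fin F) → ZMod 2) (u v : VX F d) : ℝ :=
  chi c u v * sg (s s(u.1, v.1))

theorem ee_abs (u v : VX F d) : |ee E u v| ≤ 1 := by
  unfold ee
  split_ifs <;> norm_num

theorem one_sub_ee_abs (u v : VX F d) : |1 - ee E u v| ≤ 1 := by
  unfold ee
  split_ifs <;> norm_num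

theorem chi_abs (u v : VX F d) : |chi c u v| = 1 := sg_abs _

theorem AA_abs (s : Sym2 (Fin F) → ZMod 2) (u v : VX F d) : |AA c s u v| = 1 := by
  unfold AA
  rw [abs_mul, chi_abs, sg_abs, one_mul]

theorem AA_cases (s : Sym2 (Fin F) → ZMod 2) (u v : VX F d) :
    ((dot (c u.1 v.1) u.2 + dot (c v.1 u.1) v.2 = s s(u.1, v.1)) ∧ AA c s u v = 1) ∨
      (¬ (dot (c u.1 v.1) u.2 + dot (c v.1 u.1) v.2 = s s(u.1, v.1)) ∧ AA c s u v = -1) := by
  unfold AA chi
  rcases sg_cases (dot (c u.1 v.1) u.2 + dot (c v.1 u.1) v.2) with ⟨h1, h2⟩ | ⟨h1, h2⟩ <;>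
  rcases sg_cases (s s(u.1, v.1)) with ⟨h3, h4⟩ | ⟨h3, h4⟩ <;> rw [h1, h3] at * <;>
  simp [h2, h4]

open Classical in
/-- the pointwise inequality -/
theorem pointwise (s s' : Sym2 (Fin F) → ZMod 2) (u v u' v' : VX F d) :
    ee E u v - ee E u v * ee E u' v' * (AA c s u v * AA c s' u' v') +
      ee E u v * (1 - ee E u' v') * AA c s u v + (1 - ee E u v) * ee E u' v' * AA c s' u' v' ≤
    2 * (if ¬ ((XG E c s).Adj u v ↔ (XG E c s').Adj u' v') then (1 : ℝ) else 0) := by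
  have hA := AA_cases c s u v
  have hB := AA_cases c s' u' v'
  have e1 : (XG E c s).Adj u v ↔ E.Adj u.1 v.1 ∧
      dot (c u.1 v.1) u.2 + dot (c v.1 u.1) v.2 = s s(u.1, v.1) := Iff.rfl
  have e2 : (XG E c s').Adj u' v' ↔ E.Adj u'.1 v'.1 ∧
      dot (c u'.1 v'.1) u'.2 + dot (c v'.1 u'.1) v'.2 = s' s(u'.1, v'.1) := Iff.rfl
  rw [e1, e2]
  unfold ee
  by_cases h1 : E.Adj u.1 v.1 <;> by_cases h2 : E.Adj u'.1 v'.1 <;>
  rcases hA with ⟨h3, h4⟩ | ⟨h3, h4⟩ <;> rcases hB with ⟨h5, h6⟩ | ⟨h5, h6⟩ <;>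
  rw [h4, h6] <;> simp [h1, h2, h3, h5] <;> norm_num

open Classical in
theorem sum_ee : ∑ u : VX F d, ∑ v : VX F d, ee E u v = 2 * (E.edgeSet.ncard : ℝ) * 4 ^ d := by
  have h1 : ∑ x : Fin F, ∑ y : Fin F, (if E.Adj x y then (1 : ℝ) else 0) =
      2 * (E.edgeSet.ncard : ℝ) := by
    have h2 := E.sum_degrees_eq_twice_card_edges
    have h3 : E.edgeSet.ncard = E.edgeFinset.card := by
      rw [← Set.ncard_coe_finset, SimpleGraph.coe_edgeFinset]
    rw [h3]
    have h4 : ∀ x : Fin F, ∑ y : Fin F, (if E.Adj x y then (1 : ℝ) else 0) = (E.degree x : ℝ) := by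
      intro x
      rw [Finset.sum_boole]
      congr 2
      ext y
      simp
    simp only [h4]
    exact_mod_cast h2
  have h5 : (Fintype.card (Fd d) : ℝ) = 2 ^ d := by
    simp [Fd]
  rw [← h1, Fintype.sum_prod_type]
  have h6 : ∀ (x : Fin F) (a : Fd d), ∑ v : VX F d, ee E (x, a) v =
      2 ^ d * ∑ y : Fin F, (if E.Adj x y then (1 : ℝ) else 0) := by
    intro x a
    rw [Fintype.sum_prod_type, mul_sum]
    refine sum_congr rfl fun y _ => ?_
    have h7 : ∀ b : Fd d, ee E (x, a) (y, b) = if E.Adj x y then (1 : ℝ) else 0 := fun b => rfl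
    simp only [h7]
    rw [sum_const, card_univ, nsmul_eq_mul, h5]
  simp only [h6, sum_const, card_univ, nsmul_eq_mul, h5]
  rw [← mul_sum, ← mul_sum, show (4 : ℝ) = 2 * 2 by norm_num, mul_pow]
  ring

theorem errors_eq (G H : SimpleGraph (VX F d)) (f : Equiv.Perm (VX F d)) : by
    classical
    exact (errors G H f : ℝ) = ∑ u : VX F d, ∑ v : VX F d,
      (if ¬ (G.Adj u v ↔ H.Adj (f u) (f v)) then (1 : ℝ) else 0) := by
  classical
  unfold errors
  rw [← Fintype.sum_prod_type' (f := fun u v : VX F d =>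
    (if ¬ (G.Adj u v ↔ H.Adj (f u) (f v)) then (1 : ℝ) else 0)), Finset.sum_boole]
  congr 1
  rw [← Set.ncard_coe_finset]
  congr 1
  ext p
  simp

end

open Classical in
theorem t_FAR (h : Pool.Agent.H676.ED.S_SGN) : Pool.Agent.H676.ED.S_FAR := by
  intro ε hε
  obtain ⟨K, hK⟩ := h (ε / 3) (by positivity)
  refine ⟨K, fun F d E c hF => ?_⟩
  set N := 2 * (E.edgeSet.ncard : ℝ) with hN
  -- the first kernel
  let k₁ : VX F d → VX F d → VX F d → VX F d → ℝ := fun u v u' v' => (1 - ee E u' v') * chi c u v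
  have hk₁ : ∀ u v u' v', |k₁ u v u' v'| ≤ 1 := by
    intro u v u' v'
    simp only [k₁]
    rw [abs_mul, chi_abs, mul_one]
    exact one_sub_ee_abs E u' v'
  have hb₁ := hK F d E hF k₁ hk₁
  set B₁ := (univ.filter fun s : Sym2 (Fin F) → ZMod 2 => ∃ g : VX F d → VX F d,
      ε / 3 * (2 * (E.edgeSet.ncard : ℝ)) * 4 ^ d <
        |∑ u : VX F d, ∑ v : VX F d, if E.Adj u.1 v.1 then
          sg (s s(u.1, v.1)) * k₁ u v (g u) (g v) else 0|) with hB₁
  have hpos : 0 < Fintype.card (Sym2 (Fin F) → ZMod 2) := Fintype.card_pos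
  obtain ⟨s, hs⟩ : ∃ s, s ∉ B₁ := by
    by_contra hcon
    push Not at hcon
    have : B₁ = univ := eq_univ_of_forall hcon
    rw [this, card_univ] at hb₁
    omega
  let k₃ : VX F d → VX F d → VX F d → VX F d → ℝ := fun u' v' u v =>
    ee E u v * AA c s u v * chi c u' v'
  have hk₃ : ∀ u v u' v', |k₃ u v u' v'| ≤ 1 := by
    intro u v u' v'
    simp only [k₃]
    rw [abs_mul, abs_mul, chi_abs, AA_abs, mul_one, mul_one]
    exact ee_abs E u' v'
  have hb₃ := hK F d E hF k₃ hk₃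
  set B₃ := (univ.filter fun s : Sym2 (Fin F) → ZMod 2 => ∃ g : VX F d → VX F d,
      ε / 3 * (2 * (E.edgeSet.ncard : ℝ)) * 4 ^ d <
        |∑ u : VX F d, ∑ v : VX F d, if E.Adj u.1 v.1 then
          sg (s s(u.1, v.1)) * k₃ u v (g u) (g v) else 0|) with hB₃
  obtain ⟨s', hs'⟩ : ∃ s', s' ∉ B₁ ∪ B₃ := by
    by_contra hcon
    push Not at hcon
    have h1 : B₁ ∪ B₃ = univ := eq_univ_of_forall hcon
    have h2 := card_union_le B₁ B₃
    rw [h1, card_univ] at h2
    omega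
  rw [mem_union, not_or] at hs'
  obtain ⟨hs1, hs3⟩ := hs'
  rw [hB₁, mem_filter, not_and] at hs hs1
  rw [hB₃, mem_filter, not_and] at hs3
  have hs := hs (mem_univ _)
  have hs1 := hs1 (mem_univ _)
  have hs3 := hs3 (mem_univ _)
  push Not at hs hs1 hs3
  refine ⟨s, s', fun f => ?_⟩
  -- the three sums
  have hX1 := hs f
  have hX2 := hs1 f.symm
  have hX3 := hs3 f.symm
  have e1 : ∑ u : VX F d, ∑ v : VX F d, ee E u v * (1 - ee E (f u) (f v)) * AA c s u v =
      ∑ u : VX F d, ∑ v : VX F d, if E.Adj u.1 v.1 then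
          sg (s s(u.1, v.1)) * k₁ u v (f u) (f v) else 0 := by
    refine sum_congr rfl fun u _ => sum_congr rfl fun v _ => ?_
    simp only [k₁, AA]
    unfold ee
    split_ifs <;> ring
  have e2 : ∑ u : VX F d, ∑ v : VX F d, (1 - ee E u v) * ee E (f u) (f v) *
      AA c s' (f u) (f v) =
      ∑ u : VX F d, ∑ v : VX F d, if E.Adj u.1 v.1 then
          sg (s' s(u.1, v.1)) * k₁ u v (f.symm u) (f.symm v) else 0 := by
    rw [reindex f (fun u v : VX F d => if E.Adj u.1 v.1 then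
          sg (s' s(u.1, v.1)) * k₁ u v (f.symm u) (f.symm v) else 0)]
    refine sum_congr rfl fun u _ => sum_congr rfl fun v _ => ?_
    rw [Equiv.symm_apply_apply, Equiv.symm_apply_apply]
    simp only [k₁, AA]
    unfold ee
    split_ifs <;> ring
  have e3 : ∑ u : VX F d, ∑ v : VX F d, ee E u v * ee E (f u) (f v) *
      (AA c s u v * AA c s' (f u) (f v)) =
      ∑ u : VX F d, ∑ v : VX F d, if E.Adj u.1 v.1 then
          sg (s' s(u.1, v.1)) * k₃ u v (f.symm u) (f.symm v) else 0 := by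
    rw [reindex f (fun u v : VX F d => if E.Adj u.1 v.1 then
          sg (s' s(u.1, v.1)) * k₃ u v (f.symm u) (f.symm v) else 0)]
    refine sum_congr rfl fun u _ => sum_congr rfl fun v _ => ?_
    rw [Equiv.symm_apply_apply, Equiv.symm_apply_apply]
    simp only [k₃, AA]
    unfold ee
    split_ifs <;> ring
  have hpt : ∑ u : VX F d, ∑ v : VX F d, (ee E u v -
      ee E u v * ee E (f u) (f v) * (AA c s u v * AA c s' (f u) (f v)) +
      ee E u v * (1 - ee E (f u) (f v)) * AA c s u v +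
      (1 - ee E u v) * ee E (f u) (f v) * AA c s' (f u) (f v)) ≤
      ∑ u : VX F d, ∑ v : VX F d,
        2 * (if ¬ ((XG E c s).Adj u v ↔ (XG E c s').Adj (f u) (f v)) then (1 : ℝ) else 0) :=
    sum_le_sum fun u _ => sum_le_sum fun v _ => pointwise E c s s' u v (f u) (f v)
  simp only [sum_add_distrib, sum_sub_distrib] at hpt
  rw [sum_ee, e1, e2, e3] at hpt
  have e4 : ∑ u : VX F d, ∑ v : VX F d,
        2 * (if ¬ ((XG E c s).Adj u v ↔ (XG E c s').Adj (f u) (f v)) then (1 : ℝ) else 0) =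
        2 * (errors (XG E c s) (XG E c s') f : ℝ) := by
    rw [errors_eq, mul_sum]
    refine sum_congr rfl fun u _ => ?_
    rw [mul_sum]
  rw [e4] at hpt
  have a1 := (abs_le.1 hX1).1
  have a2 := (abs_le.1 hX2).1
  have a3 := (abs_le.1 hX3).2
  rw [← hN] at hpt a1 a2 a3
  linarith

end Pool.Agent.H376.EDFAR
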