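import Pool.Agent.H558.PP.CStm

set_option autoImplicit false

/-!
# Windows in all directions: `S_E5` from the combinatorial lemmas
-/

namespace Pool.Agent.H558.PP

open Finset

namespace E5N

open scoped Classical in
/-- exchange of sums, first moment -/
lemma ex0 {A P : Type} [Fintype A] (s : Finset P) (r : A → P → Prop) :
    ∑ p ∈ s, (#{a | r a p} : ℝ) = ∑ a, (#{p ∈ s | r a p} : ℝ) := by
  simp only [Finset.card_filter, Nat.cast_sum, Nat.cast_ite, Nat.cast_one, Nat.cast_zero]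
  exact Finset.sum_comm

open scoped Classical in
/-- exchange of sums, second moment -/
lemma ex1 {A P : Type} [Fintype A] [Fintype P] (r : A → P → Prop) :
    ∑ p, (#{a | r a p} : ℝ) ^ 2 = ∑ a, ∑ a', (#{p | r a p ∧ r a' p} : ℝ) := by
  simp only [Finset.card_filter, Nat.cast_sum, Nat.cast_ite, Nat.cast_one, Nat.cast_zero]
  have h1 : ∀ p : P, (∑ a, (if r a p then (1 : ℝ) else 0)) ^ 2 =
      ∑ a, ∑ a', if r a p ∧ r a' p then (1 : ℝ) else 0 := by
    intro p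
    rw [sq, Finset.sum_mul_sum]
    refine Finset.sum_congr rfl fun a _ => Finset.sum_congr rfl fun a' _ => ?_
    by_cases h1 : r a p <;> by_cases h2 : r a' p <;> simp [h1, h2]
  rw [Finset.sum_congr rfl fun p _ => h1 p, Finset.sum_comm]
  refine Finset.sum_congr rfl fun a _ => ?_
  rw [Finset.sum_comm]

open scoped Classical in
/-- the real number form of the statement -/
lemma core (hpz : S_PZ) {A PA PB : Type} [Fintype A] [Fintype PA] [Fintype PB] (red : PA → PB)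
    (r : A → PA → Prop) (r' : A → PB → Prop) (G : A → A → ℝ) (D : Finset PA)
    (W Q N R E M ℓ : ℝ) (hW : 1 ≤ W) (hQ : 0 < Q) (hR : 1 ≤ R) (hE : 1 ≤ E) (hl : 2 ≤ ℓ)
    (hM : M = Q / W ^ 2)
    (hfib : ∀ ν, (#{p | red p = ν} : ℝ) = M ^ 2)
    (hE4 : ∀ a ν, (#{p | red p = ν ∧ r a p} : ℝ) = if r' a ν then M else 0)
    (hE4' : ∀ a, (#{p | r a p} : ℝ) = Q / W * N)
    (hE1 : ∀ a a', (#{p | r a p ∧ r a' p} : ℝ) ≤ W * max W (G a a'))
    (hE2 : ∀ a a', G a a' ≤ W → (#{p | r a p ∧ r a' p} : ℝ) ≤ (#{ν | r' a ν ∧ r' a' ν} : ℝ))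
    (hE3 : 2 * ∑ a, ∑ a', G a a' ≤ Q ^ 2 * ℓ) (hG : ∀ a a', 0 ≤ G a a')
    (hD : ∀ p ∈ D, ∀ a, ¬ r a p) (hA : (Fintype.card A : ℝ) = Q)
    (hB : (Fintype.card PB : ℝ) = W ^ 4) (hN : W ^ 2 ≤ R * N) (hbig : 32 * E * R ^ 4 * ℓ ≤ W) :
    W ^ 4 ≤ 16 * R ^ 2 * (#{ν | E * (#{p ∈ D | red p = ν} : ℝ) ≤ M ^ 2} : ℝ) := by
  have hW0 : 0 < W := by linarith
  have hR0 : 0 < R := by linarith
  have hE0 : 0 < E := by linarith
  have hM0 : 0 < M := by rw [hM]; positivity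
  have hN0 : 0 < N := by
    by_contra hcon
    have h1 : R * N ≤ 0 := mul_nonpos_of_nonneg_of_nonpos hR0.le (not_lt.1 hcon)
    have h2 : 0 < W ^ 2 := by positivity
    linarith
  have hlW : ℓ ≤ W := by
    refine le_trans ?_ hbig
    have h1 : (1 : ℝ) ≤ R ^ 4 := one_le_pow₀ hR
    have h2 : (1 : ℝ) ≤ 32 * E * R ^ 4 := by nlinarith
    nlinarith
  obtain ⟨F, hF⟩ : ∃ F : PA → ℝ, F = fun p => (#{a | r a p} : ℝ) := ⟨_, rfl⟩
  obtain ⟨h, hh⟩ : ∃ h : PB → ℝ, h = fun ν => (#{a | r' a ν} : ℝ) := ⟨_, rfl⟩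
  obtain ⟨v, hv⟩ : ∃ v : PB → ℝ, v = fun ν => ∑ p ∈ univ.filter (fun p => red p = ν), F p ^ 2 -
    h ν ^ 2 := ⟨_, rfl⟩
  -- (i)
  have hFib : ∀ ν, ∑ p ∈ univ.filter (fun p => red p = ν), F p = M * h ν := by
    intro ν
    rw [hF, ex0]
    have e1 : ∀ a, (#{p ∈ univ.filter (fun p => red p = ν) | r a p} : ℝ) =
        M * (if r' a ν then 1 else 0) := by
      intro a
      rw [Finset.filter_filter, hE4 a ν]
      split_ifs <;> simp
    rw [Finset.sum_congr rfl fun a _ => e1 a, ← Finset.mul_sum, hh]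
    simp only [Finset.card_filter, Nat.cast_sum, Nat.cast_ite, Nat.cast_one, Nat.cast_zero]
  have hFtot : ∑ p, F p = Q * (Q / W * N) := by
    rw [hF, ex0, Finset.sum_congr rfl fun a _ => hE4' a, Finset.sum_const, Finset.card_univ,
      nsmul_eq_mul, hA]
  have hhsum : ∑ ν, h ν = Q * N * W := by
    have e1 : ∑ ν, ∑ p ∈ univ.filter (fun p => red p = ν), F p = ∑ p, F p :=
      Finset.sum_fiberwise univ red F
    rw [Finset.sum_congr rfl fun ν _ => hFib ν, ← Finset.mul_sum, hFtot, hM] at e1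
    have e2 : Q / W ^ 2 * ∑ ν, h ν = Q / W ^ 2 * (Q * N * W) := by
      rw [e1]; field_simp
    exact mul_left_cancel₀ (by positivity) e2
  -- (ii)
  have hvv : ∀ ν, v ν = ∑ p ∈ univ.filter (fun p => red p = ν), (F p - h ν / M) ^ 2 := by
    intro ν
    have e1 : ∀ p, (F p - h ν / M) ^ 2 = F p ^ 2 - 2 * (h ν / M) * F p + (h ν / M) ^ 2 := by
      intro p; ring
    rw [Finset.sum_congr rfl fun p _ => e1 p, Finset.sum_add_distrib, Finset.sum_sub_distrib,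
      ← Finset.mul_sum, hFib, Finset.sum_const, nsmul_eq_mul, hfib, hv]
    field_simp
    ring
  have hv0 : ∀ ν, 0 ≤ v ν := fun ν => by
    rw [hvv]; exact Finset.sum_nonneg fun p _ => sq_nonneg _
  have hvsum : ∑ ν, v ν = ∑ p, F p ^ 2 - ∑ ν, h ν ^ 2 := by
    rw [hv, Finset.sum_sub_distrib]
    congr 1
    exact Finset.sum_fiberwise univ red fun p => F p ^ 2
  have hF2 : ∑ p, F p ^ 2 = ∑ a, ∑ a', (#{p | r a p ∧ r a' p} : ℝ) := by rw [hF, ex1]
  have hh2 : ∑ ν, h ν ^ 2 = ∑ a, ∑ a', (#{ν | r' a ν ∧ r' a' ν} : ℝ) := by rw [hh, ex1]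
  have hvle : ∑ ν, v ν ≤ W * (Q ^ 2 * ℓ / 2) := by
    rw [hvsum, hF2, hh2, ← Finset.sum_sub_distrib]
    have e1 : ∑ a, (∑ a', (#{p | r a p ∧ r a' p} : ℝ) - ∑ a', (#{ν | r' a ν ∧ r' a' ν} : ℝ)) ≤
        ∑ a, ∑ a', W * G a a' := by
      refine Finset.sum_le_sum fun a _ => ?_
      rw [← Finset.sum_sub_distrib]
      refine Finset.sum_le_sum fun a' _ => ?_
      by_cases hg : G a a' ≤ W
      · have h1 := hE2 a a' hg
        have h2 := mul_nonneg hW0.le (hG a a')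
        linarith
      · have h1 := hE1 a a'
        rw [max_eq_right (not_le.1 hg).le] at h1
        have h2 : (0 : ℝ) ≤ (#{ν | r' a ν ∧ r' a' ν} : ℝ) := Nat.cast_nonneg _
        linarith
    refine e1.trans ?_
    simp only [← Finset.mul_sum]
    refine mul_le_mul_of_nonneg_left ?_ hW0.le
    linarith
  have hF2le : ∑ p, F p ^ 2 ≤ 2 * W ^ 2 * Q ^ 2 := by
    rw [hF2]
    have e1 : ∑ a, ∑ a', (#{p | r a p ∧ r a' p} : ℝ) ≤ ∑ a : A, ∑ a' : A, (W * W + W * G a a') := by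
      refine Finset.sum_le_sum fun a _ => Finset.sum_le_sum fun a' _ => (hE1 a a').trans ?_
      rw [← mul_add]
      refine mul_le_mul_of_nonneg_left ?_ hW0.le
      exact max_le (by linarith [hG a a']) (by linarith)
    refine e1.trans ?_
    simp only [Finset.sum_add_distrib, Finset.sum_const, Finset.card_univ, nsmul_eq_mul,
      ← Finset.mul_sum]
    rw [hA]
    have h2 : W * ∑ a, ∑ a', G a a' ≤ W * (Q ^ 2 * ℓ / 2) :=
      mul_le_mul_of_nonneg_left (by linarith) hW0.le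
    have h3 : W * (Q ^ 2 * ℓ / 2) ≤ W * (Q ^ 2 * W) := by
      refine mul_le_mul_of_nonneg_left ?_ hW0.le
      have h4 : Q ^ 2 * ℓ ≤ Q ^ 2 * W := mul_le_mul_of_nonneg_left hlW (by positivity)
      have h5 : 0 ≤ Q ^ 2 * W := by positivity
      linarith
    nlinarith
  have hh2le : ∑ ν, h ν ^ 2 ≤ 2 * W ^ 2 * Q ^ 2 := by
    have h1 : 0 ≤ ∑ ν, v ν := Finset.sum_nonneg fun ν _ => hv0 ν
    rw [hvsum] at h1
    linarith
  -- (iii)
  have hd : ∀ ν, (#{p ∈ D | red p = ν} : ℝ) * h ν ^ 2 ≤ M ^ 2 * v ν := by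
    intro ν
    have e1 : (#{p ∈ D | red p = ν} : ℝ) * (h ν / M) ^ 2 ≤ v ν := by
      rw [hvv]
      have e2 : (#{p ∈ D | red p = ν} : ℝ) * (h ν / M) ^ 2 =
          ∑ p ∈ D.filter (fun p => red p = ν), (F p - h ν / M) ^ 2 := by
        rw [← nsmul_eq_mul, ← Finset.sum_const]
        refine Finset.sum_congr rfl fun p hp => ?_
        have h0 : F p = 0 := by
          rw [hF]
          simp only [Nat.cast_eq_zero, Finset.card_eq_zero]
          exact Finset.filter_eq_empty_iff.2 fun a _ => hD p (Finset.mem_filter.1 hp).1 a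
        rw [h0]; ring
      rw [e2]
      refine Finset.sum_le_sum_of_subset_of_nonneg ?_ fun _ _ _ => sq_nonneg _
      intro p hp
      exact Finset.mem_filter.2 ⟨Finset.mem_univ _, (Finset.mem_filter.1 hp).2⟩
    have e3 := mul_le_mul_of_nonneg_left e1 (sq_nonneg M)
    have e4 : M ^ 2 * ((#{p ∈ D | red p = ν} : ℝ) * (h ν / M) ^ 2) =
        (#{p ∈ D | red p = ν} : ℝ) * h ν ^ 2 := by
      field_simp
    rw [e4] at e3
    exact e3
  -- (iv)
  have hN2 : W ^ 4 ≤ R ^ 2 * N ^ 2 := by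
    have h1 : (W ^ 2) ^ 2 ≤ (R * N) ^ 2 := pow_le_pow_left₀ (by positivity) hN 2
    calc W ^ 4 = (W ^ 2) ^ 2 := by ring
      _ ≤ (R * N) ^ 2 := h1
      _ = R ^ 2 * N ^ 2 := by ring
  obtain ⟨H, hH⟩ : ∃ H : ℝ, H = Q * N / W ^ 3 := ⟨_, rfl⟩
  have hH2 : H ^ 2 * W ^ 4 = Q ^ 2 * N ^ 2 / W ^ 2 := by
    rw [hH]; field_simp
  have key := hpz PB h (fun ν => (#{p ∈ D | red p = ν} : ℝ)) v H (M ^ 2) (W * (Q ^ 2 * ℓ / 2)) R E
    (fun ν => by rw [hh]; exact Nat.cast_nonneg _) (fun ν => Nat.cast_nonneg _) hv0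
    (by rw [hH]; positivity) (by positivity) hR hE (by positivity)
    (by rw [hhsum, hB, hH]; field_simp)
    (by
      rw [hB]
      have e1 : 2 * R ^ 2 * H ^ 2 * W ^ 4 = 2 * Q ^ 2 * (R ^ 2 * N ^ 2) / W ^ 2 := by
        have : 2 * R ^ 2 * H ^ 2 * W ^ 4 = 2 * R ^ 2 * (H ^ 2 * W ^ 4) := by ring
        rw [this, hH2]; ring
      rw [e1]
      refine hh2le.trans ?_
      rw [le_div_iff₀ (by positivity)]
      have h1 := mul_le_mul_of_nonneg_left hN2 (by positivity : (0 : ℝ) ≤ 2 * Q ^ 2)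
      calc 2 * W ^ 2 * Q ^ 2 * W ^ 2 = 2 * Q ^ 2 * W ^ 4 := by ring
        _ ≤ _ := h1)
    hd hvle
    (by
      rw [hB, hH2, le_div_iff₀ (by positivity)]
      have h1 : 32 * E * R ^ 4 * ℓ * W ^ 3 ≤ R ^ 2 * N ^ 2 := by
        have h2 := mul_le_mul_of_nonneg_right hbig (by positivity : (0 : ℝ) ≤ W ^ 3)
        calc 32 * E * R ^ 4 * ℓ * W ^ 3 ≤ W * W ^ 3 := h2
          _ = W ^ 4 := by ring
          _ ≤ _ := hN2
      have h3 : 32 * E * R ^ 2 * ℓ * W ^ 3 ≤ N ^ 2 := by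
        have h4 : R ^ 2 * (32 * E * R ^ 2 * ℓ * W ^ 3) ≤ R ^ 2 * N ^ 2 := by
          calc R ^ 2 * (32 * E * R ^ 2 * ℓ * W ^ 3) = 32 * E * R ^ 4 * ℓ * W ^ 3 := by ring
            _ ≤ _ := h1
        exact le_of_mul_le_mul_left h4 (by positivity)
      have h5 := mul_le_mul_of_nonneg_left h3 (by positivity : (0 : ℝ) ≤ Q ^ 2)
      calc 64 * E * R ^ 2 * (W * (Q ^ 2 * ℓ / 2)) * W ^ 2
          = Q ^ 2 * (32 * E * R ^ 2 * ℓ * W ^ 3) := by ring
        _ ≤ _ := h5)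
  rw [hB] at key
  exact key

/-- equality of the numbers, for arbitrary instances -/
lemma cardEq {α : Type} (s : Finset α) (p q : α → Prop) (i1 : DecidablePred p)
    (i2 : DecidablePred q) (h : ∀ x ∈ s, p x ↔ q x) :
    (@Finset.filter α p i1 s).card = (@Finset.filter α q i2 s).card := by
  have e1 : @Finset.filter α p i1 s = @Finset.filter α q i2 s := by
    ext x
    rw [Finset.mem_filter, Finset.mem_filter]
    constructor
    · rintro ⟨hx, hp⟩
      exact ⟨hx, (h x hx).1 hp⟩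
    · rintro ⟨hx, hp⟩
      exact ⟨hx, (h x hx).2 hp⟩
  rw [e1]

/-- the number of the elements of `ZMod (2 ^ L)` over an element of `ZMod (2 ^ k)` -/
lemma card_fib1 {L k : ℕ} (hk : k ≤ L) (b : ZMod (2 ^ k)) :
    #{a : ZMod (2 ^ L) | cc hk a = b} = 2 ^ (L - k) := by
  have hsurj : Function.Surjective (cc hk) := ZMod.castHom_surjective _
  have h1 : ∀ b' : ZMod (2 ^ k), #{a : ZMod (2 ^ L) | cc hk a = b'} =
      #{a : ZMod (2 ^ L) | cc hk a = b} := fun b' =>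
    AddMonoidHom.card_fiber_eq_of_mem_range (cc hk).toAddMonoidHom (hsurj b') (hsurj b)
  have h2 : ∑ b' : ZMod (2 ^ k), #{a : ZMod (2 ^ L) | cc hk a = b'} = 2 ^ L := by
    rw [← Finset.card_eq_sum_card_fiberwise (s := univ) (t := univ) (fun _ _ => by simp)]
    rw [Finset.card_univ, ZMod.card]
  rw [Finset.sum_congr rfl fun b' _ => h1 b', Finset.sum_const, Finset.card_univ, ZMod.card,
    smul_eq_mul] at h2
  have h3 : 2 ^ k * 2 ^ (L - k) = 2 ^ L := by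
    rw [← pow_add, Nat.add_sub_cancel' hk]
  exact Nat.eq_of_mul_eq_mul_left (by positivity) (h2.trans h3.symm)

lemma card_fib {L k : ℕ} (hk : k ≤ L) (ν : ZMod (2 ^ k) × ZMod (2 ^ k)) :
    #{p : ZMod (2 ^ L) × ZMod (2 ^ L) | cc hk p.1 = ν.1 ∧ cc hk p.2 = ν.2} =
      2 ^ (L - k) * 2 ^ (L - k) := by
  have h1 : (univ.filter fun p : ZMod (2 ^ L) × ZMod (2 ^ L) =>
      cc hk p.1 = ν.1 ∧ cc hk p.2 = ν.2) =
      (univ.filter fun a : ZMod (2 ^ L) => cc hk a = ν.1) ×ˢ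
        (univ.filter fun a : ZMod (2 ^ L) => cc hk a = ν.2) := by
    ext p
    simp [Finset.mem_product]
  rw [h1, Finset.card_product, card_fib1, card_fib1]

end E5N

open E5N in
theorem e5 (h1 : S_E1) (h2 : S_E2) (h3 : S_E3) (h4 : S_E4) (h4' : S_E4') (hpz : S_PZ) : S_E5 := by
  classical
  intro L w R E hw hR hE hbig n S hS hSc D hD
  have hwL : w ≤ L := by omega
  -- the number `N`
  obtain ⟨N, hN1, hN2⟩ : ∃ N : ℕ, (2 ^ w) ^ 2 ≤ R * N ∧ ∀ a, N ≤ #(S a) := by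
    refine ⟨((2 ^ w) ^ 2 + R - 1) / R, ?_, fun a => ?_⟩
    · have e1 := Nat.div_add_mod ((2 ^ w) ^ 2 + R - 1) R
      have e2 := Nat.mod_lt ((2 ^ w) ^ 2 + R - 1) (by omega : R > 0)
      omega
    · rw [Nat.div_le_iff_le_mul_add_pred (by omega : 0 < R)]
      have := hSc a
      omega
  choose S' hS' hS'c using fun a => Finset.exists_subset_card_eq (hN2 a)
  have hS'b : ∀ a, S' a ⊆ range (2 ^ w) ×ˢ range (2 ^ w) := fun a => (hS' a).trans (hS a)
  have key := core hpz (A := ZMod (2 ^ L)) (PA := ZMod (2 ^ L) × ZMod (2 ^ L))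
    (PB := ZMod (2 ^ (2 * w)) × ZMod (2 ^ (2 * w))) (fun p => (cc hw p.1, cc hw p.2))
    (fun a p => Fa L w (n a) a (S' a) p) (fun a ν => Fa (2 * w) w (cc hw (n a)) (cc hw a) (S' a) ν)
    (fun a a' => (Nat.gcd (a - a').val (2 ^ L) : ℝ)) D (2 ^ w) (2 ^ L) N R E (2 ^ (L - 2 * w))
    (L + 2) ?_ ?_ ?_ ?_ ?_ ?_ ?_ ?_ ?_ ?_ ?_ ?_ ?_ ?_ ?_ ?_ ?_ ?_
  · have e1 : ((2 : ℝ) ^ w) ^ 4 = ((4 ^ (2 * w) : ℕ) : ℝ) := by
      push_cast
      rw [pow_mul 4 2 w, ← pow_mul, mul_comm w 4, pow_mul]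
      norm_num
    have e2 : ((2 : ℝ) ^ (L - 2 * w)) ^ 2 = ((4 ^ (L - 2 * w) : ℕ) : ℝ) := by
      push_cast
      rw [← pow_mul, mul_comm _ 2, pow_mul]
      norm_num
    rw [e1, e2] at key
    refine (Nat.cast_le (α := ℝ)).1 (key.trans (le_of_eq ?_))
    rw [Nat.cast_mul (16 * R ^ 2), Nat.cast_mul 16, Nat.cast_pow R, Nat.cast_ofNat]
    congr 2
    refine cardEq _ _ _ _ _ fun ν _ => ?_
    rw [← Nat.cast_mul, Nat.cast_le]
    exact Iff.of_eq (congrArg (fun t => E * t ≤ 4 ^ (L - 2 * w))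
      (cardEq _ _ _ _ _ fun p _ => Prod.ext_iff))
  · exact one_le_pow₀ (by norm_num)
  · positivity
  · exact_mod_cast hR
  · exact_mod_cast hE
  · have : (0 : ℝ) ≤ L := Nat.cast_nonneg _
    linarith
  · rw [eq_div_iff (by positivity), ← pow_mul, ← pow_add]
    congr 1
    omega
  · intro ν
    have e1 := card_fib hw ν
    refine (congrArg (Nat.cast : ℕ → ℝ) ((cardEq _ _ _ _ _ (fun p _ => Prod.ext_iff)).trans
      e1)).trans ?_
    push_cast
    ring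
  · intro a ν
    have e1 := h4 L (2 * w) w hw (by omega) (n a) a (S' a) (hS'b a) ν
    refine (congrArg (Nat.cast : ℕ → ℝ) ((cardEq _ _ _ _ _ (fun p _ => ?_)).trans
      e1)).trans ?_
    · rw [Prod.ext_iff, and_assoc]
    · push_cast
      congr
  · intro a
    have e1 := h4' L w hwL (n a) a (S' a) (hS'b a)
    refine (congrArg (Nat.cast : ℕ → ℝ) ((cardEq _ _ _ _ _ (fun p _ => Iff.rfl)).trans
      e1)).trans ?_
    rw [hS'c a]
    push_cast
    congr 1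
    rw [eq_div_iff (by positivity), ← pow_add]
    congr 1
    omega
  · intro a a'
    have e1 := h1 L w (n a) (n a') a a' hwL
    have e2 : ∀ (a : ZMod (2 ^ L)) (p : ZMod (2 ^ L) × ZMod (2 ^ L)),
        Fa L w (n a) a (S' a) p → (II L (n a) a p).val < 2 ^ w := by
      intro a p hp
      exact Finset.mem_range.1 (Finset.mem_product.1 (hS'b a hp)).2
    have e3 : (#{p | Fa L w (n a) a (S' a) p ∧ Fa L w (n a') a' (S' a') p} : ℕ) ≤
        2 ^ w * max (2 ^ w) (Nat.gcd (a - a').val (2 ^ L)) := by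
      refine le_trans (Finset.card_le_card ?_) e1
      intro p hp
      rw [Finset.mem_filter] at hp ⊢
      exact ⟨hp.1, e2 a p hp.2.1, e2 a' p hp.2.2⟩
    refine le_trans (le_of_eq (congrArg (Nat.cast : ℕ → ℝ)
      (cardEq _ _ _ _ _ (fun p _ => Iff.rfl)))) (le_trans (Nat.cast_le.2 e3) ?_)
    push_cast
    exact le_rfl
  · intro a a' hg
    have e1 := h2 L (2 * w) w hw le_rfl (n a) (n a') a a' (by exact_mod_cast hg) (S' a) (S' a')
      (hS'b a) (hS'b a')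
    refine le_trans (le_of_eq (congrArg (Nat.cast : ℕ → ℝ)
      (cardEq _ _ _ _ _ (fun p _ => Iff.rfl)))) (le_trans (Nat.cast_le.2 e1) ?_)
    exact le_of_eq (congrArg (Nat.cast : ℕ → ℝ) (cardEq _ _ _ _ _ (fun p _ => Iff.rfl)))
  · have e1 := h3 L
    have e2 : ((2 * ∑ a : ZMod (2 ^ L), ∑ a' : ZMod (2 ^ L), Nat.gcd (a - a').val (2 ^ L) : ℕ) : ℝ) ≤
        ((4 ^ L * (L + 2) : ℕ) : ℝ) := Nat.cast_le.2 e1
    push_cast at e2
    have e3 : ((2 : ℝ) ^ L) ^ 2 = 4 ^ L := by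
      rw [← pow_mul, mul_comm, pow_mul]
      norm_num
    rw [e3]
    exact e2
  · intro a a'
    exact Nat.cast_nonneg _
  · intro p hp a hF
    exact hD p hp a (hS' a hF)
  · rw [ZMod.card]
    push_cast
    rfl
  · rw [Fintype.card_prod, ZMod.card]
    push_cast
    rw [← pow_add, ← pow_mul]
    congr 1
    ring
  · exact_mod_cast hN1
  · exact_mod_cast hbig

end Pool.Agent.H558.PP
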