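import Pool.Agent.H387.QR.Defs5
import Pool.Agent.H553.QRT00

/-!
# T12A. Basic facts on irreducible highest weight modules

Lemmas of T00 may be used (`Pool/Agent/H553/QRT00.lean`, on main: `wt_indep`, `wt_unique`, `exists_wtOp`,
`rt_inj`, `wt_finite`, `E_wt`, `F_wt`, ...; import it).
`[n]_i = qd K d_i n` is in `RR` with its inverse for `n ≠ 0` (`qd_mem`, `qd_inv_mem`, `qd_ne`).

* `isHigh_of_irr`: `span_K {F_w v}` is stable under `F_i`, `K_i^{±1}`, and under `E_i` (`E_i F_w v` by induction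
  on `w`: `[E_i, F_j] = δ_ij [..]`), nonzero, so everything.
* `isLow_of_irr`: symmetric (apply the former to `V.omega`).
* `isWt_of_isHigh`: the `F_w v` are weight vectors.
* `exists_low`: `V` finite-dimensional, so only finitely many weights and there is a word `w` with
  `F_w v ≠ 0` and `F_{i :: w} v = 0` for all `i` (`F_w v ≠ 0` of maximal length; the lengths are bounded since
  the weights of the `F_w v` of different contents are different (`rt_inj`)).
* `Fw_nilp`: on a finite-dimensional `V` with `IsWt` all `F_w` with `w` long vanish (finitely many weights;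
  `F_w` maps `V.wt m` to `V.wt (m - rt (content w))`, and `rt` is injective: of the `n + 1` partial products
  of a word of length `n ≥ #weights` applied to `x` one is zero).
* `nondeg_left`, `nondeg_right`: `{x : ev(y,x) = 0 ∀ y}` is a submodule for `E_i, F_i, K_i^{±1}`, not everything.
* `tensor_isRt`: weights of `V`: `lam - rt k`; of `V'`: `-lam + rt k'`; spanned by weight vectors; tensor
  products of weight vectors have weight in the root lattice.
* `latF_of_latA`: divided powers `F_i^{(n)} = F_i^n / [n]_i!` and `[n]_i!` is a unit of `RR`; `AA ≤ RR`.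
-/

namespace Pool.Agent.H387.QR

open scoped TensorProduct

variable {I : Type} [Fintype I] [DecidableEq I] {C : Cartan I} {K : Type*} [Field K] [HasQ K]
variable {M : Type*} [AddCommGroup M] [Module K M] {N : Type*} [AddCommGroup N] [Module K N]

namespace T12A

theorem Km_wt {V : Mod C K M} {m : I → ℤ} {x : M} (h : x ∈ V.wt m) (i : I) :
    V.Km i x = qq K ^ (-((C.d i : ℤ) * m i)) • x := by
  have h1 := congrArg (V.Km i) (h i)
  rw [V.kmkp, map_smul] at h1
  nth_rw 2 [h1]
  rw [smul_smul, ← qadd, neg_add_cancel, zpow_zero, one_smul]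

theorem omega_wt {V : Mod C K M} {m : I → ℤ} {x : M} (h : x ∈ V.wt m) : x ∈ V.omega.wt (-m) := by
  intro i
  rw [Mod.omega_Kp, Km_wt h, Pi.neg_apply, mul_neg]

/-- the content of a word -/
def cw : List I → I → ℤ
  | [] => 0
  | i :: w => cw w + Pi.single i 1

theorem sum_cw (w : List I) : ∑ j, cw w j = w.length := by
  induction w with
  | nil => simp [cw]
  | cons i w ih =>
    simp only [cw, Pi.add_apply, Finset.sum_add_distrib, ih, List.length_cons, Nat.cast_add,
      Nat.cast_one]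
    rw [Finset.sum_pi_single' i 1 Finset.univ, if_pos (Finset.mem_univ i)]

theorem rt_add (C : Cartan I) (k l : I → ℤ) : C.rt (k + l) = C.rt k + C.rt l := by
  funext i
  simp only [Cartan.rt, Pi.add_apply, mul_add, Finset.sum_add_distrib]

theorem rt_sub (C : Cartan I) (k l : I → ℤ) : C.rt (k - l) = C.rt k - C.rt l := by
  funext i
  simp only [Cartan.rt, Pi.sub_apply, mul_sub, Finset.sum_sub_distrib]

theorem rt_zero (C : Cartan I) : C.rt 0 = 0 := by
  funext i
  simp [Cartan.rt]

theorem rt_single (C : Cartan I) (j : I) : C.rt (Pi.single j 1) = fun i => C.a i j := by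
  funext i
  simp only [Cartan.rt, Pi.single_apply, mul_ite, mul_one, mul_zero, Finset.sum_ite_eq',
    Finset.mem_univ, if_true]

theorem Fw_wt (V : Mod C K M) {m : I → ℤ} {x : M} (h : x ∈ V.wt m) (w : List I) :
    V.Fw w x ∈ V.wt (m - C.rt (cw w)) := by
  induction w with
  | nil => simpa [cw, rt_zero] using h
  | cons j w ih =>
    have h1 := F_wt V j ih
    have h2 : (fun i => (m - C.rt (cw w)) i - C.a i j) = m - C.rt (cw (j :: w)) := by
      rw [cw, rt_add, rt_single]
      funext i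
      simp only [Pi.sub_apply, Pi.add_apply]
      ring
    rw [h2] at h1
    exact h1

theorem Ew_wt (V : Mod C K M) {m : I → ℤ} {x : M} (h : x ∈ V.wt m) (w : List I) :
    V.Ew w x ∈ V.wt (m + C.rt (cw w)) := by
  induction w with
  | nil => simpa [cw, rt_zero] using h
  | cons j w ih =>
    have h1 := E_wt V j ih
    have h2 : (fun i => (m + C.rt (cw w)) i + C.a i j) = m + C.rt (cw (j :: w)) := by
      rw [cw, rt_add, rt_single]
      funext i
      simp only [Pi.add_apply]
      ring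
    rw [h2] at h1
    exact h1

/-- all weights are in `μ` plus the root lattice -/
def Sp (V : Mod C K M) (μ : I → ℤ) : Prop := ⊤ ≤ ⨆ k : I → ℤ, V.wt (μ - C.rt k)

theorem sp_high {V : Mod C K M} {lam : I → ℤ} {v : M} (hv : IsHigh V lam v) : Sp V lam := by
  rw [Sp, ← hv.span, Submodule.span_le]
  rintro _ ⟨w, rfl⟩
  exact Submodule.mem_iSup_of_mem (cw w) (Fw_wt V hv.wt w)

theorem sp_low {V : Mod C K M} {lam : I → ℤ} {v : M} (hv : IsLow V lam v) : Sp V lam := by
  rw [Sp, ← hv.span, Submodule.span_le]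
  rintro _ ⟨w, rfl⟩
  refine Submodule.mem_iSup_of_mem (-cw w) ?_
  have h1 : lam - C.rt (-cw w) = lam + C.rt (cw w) := by
    rw [← zero_sub, rt_sub, rt_zero]
    abel
  rw [h1]
  exact Ew_wt V hv.wt w

theorem Sp.isWt {V : Mod C K M} {μ : I → ℤ} (h : Sp V μ) : V.IsWt := by
  rw [Mod.IsWt, eq_top_iff]
  exact h.trans (iSup_le fun k => le_iSup V.wt _)

theorem Sp.tensor {V : Mod C K M} {W : Mod C K N} {μ ν : I → ℤ} (hV : Sp V μ) (hW : Sp W ν) :
    Sp (V.tensor W) (μ + ν) := by
  have key : ∀ (x : M) (y : N), x ⊗ₜ[K] y ∈ ⨆ k : I → ℤ, (V.tensor W).wt (μ + ν - C.rt k) := by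
    intro x y
    have hx : x ∈ ⨆ k : I → ℤ, V.wt (μ - C.rt k) := hV Submodule.mem_top
    have hy : y ∈ ⨆ k : I → ℤ, W.wt (ν - C.rt k) := hW Submodule.mem_top
    refine Submodule.iSup_induction (fun k : I → ℤ => V.wt (μ - C.rt k)) (motive := fun x =>
      x ⊗ₜ[K] y ∈ ⨆ k : I → ℤ, (V.tensor W).wt (μ + ν - C.rt k)) hx ?_ ?_ ?_
    · intro k x hx
      refine Submodule.iSup_induction (fun k : I → ℤ => W.wt (ν - C.rt k)) (motive := fun y =>
        x ⊗ₜ[K] y ∈ ⨆ k : I → ℤ, (V.tensor W).wt (μ + ν - C.rt k)) hy ?_ ?_ ?_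
      · intro l y hy
        refine Submodule.mem_iSup_of_mem (k + l) ?_
        intro i
        change TensorProduct.map (V.Kp i) (W.Kp i) (x ⊗ₜ[K] y) = _
        rw [TensorProduct.map_tmul, hx i, hy i, TensorProduct.smul_tmul_smul, ← qadd]
        congr 2
        rw [rt_add]
        simp only [Pi.sub_apply, Pi.add_apply]
        ring
      · rw [TensorProduct.tmul_zero]
        exact Submodule.zero_mem _
      · intro y₁ y₂ h1 h2
        rw [TensorProduct.tmul_add]
        exact Submodule.add_mem _ h1 h2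
    · rw [TensorProduct.zero_tmul]
      exact Submodule.zero_mem _
    · intro x₁ x₂ h1 h2
      rw [TensorProduct.add_tmul]
      exact Submodule.add_mem _ h1 h2
  intro z _
  induction z using TensorProduct.induction_on with
  | zero => exact Submodule.zero_mem _
  | tmul x y => exact key x y
  | add x y hx hy => exact Submodule.add_mem _ (hx trivial) (hy trivial)

theorem Sp.isRt {V : Mod C K M} {μ : I → ℤ} (h : Sp V μ) {k0 : I → ℤ} (hk : μ = C.rt k0) :
    V.IsRt := by
  rw [Mod.IsRt, eq_top_iff]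
  refine h.trans (iSup_le fun k => ?_)
  have h1 : μ - C.rt k = C.rt (k0 - k) := by rw [hk, rt_sub]
  rw [h1]
  exact le_iSup (fun k : I → ℤ => V.wt (fun i => ∑ j, C.a i j * k j)) (k0 - k)

theorem Sp.mem {V : Mod C K M} {μ m : I → ℤ} (h : Sp V μ) {x : M} (hx : x ≠ 0)
    (hm : x ∈ V.wt m) : ∃ k, m = μ - C.rt k := by
  by_contra hcon
  push Not at hcon
  apply hx
  have h1 := (wt_indep V) m
  rw [Submodule.disjoint_def] at h1
  refine h1 x hm ?_
  have h2 : (⊤ : Submodule K M) ≤ ⨆ (j : I → ℤ) (_ : j ≠ m), V.wt j := by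
    refine h.trans (iSup_le fun k => ?_)
    exact le_iSup₂_of_le (μ - C.rt k) (Ne.symm (hcon k)) le_rfl
  exact h2 Submodule.mem_top

/-- the span of the `F_w v` is a submodule -/
theorem high_stab (V : Mod C K M) {lam : I → ℤ} {v : M} (hE : ∀ i, V.E i v = 0)
    (hwt : v ∈ V.wt lam) (i : I) (x : M)
    (hx : x ∈ Submodule.span K (Set.range fun w => V.Fw w v)) :
    V.E i x ∈ Submodule.span K (Set.range fun w => V.Fw w v) ∧
    V.F i x ∈ Submodule.span K (Set.range fun w => V.Fw w v) ∧
    V.Kp i x ∈ Submodule.span K (Set.range fun w => V.Fw w v) ∧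
    V.Km i x ∈ Submodule.span K (Set.range fun w => V.Fw w v) := by
  set S := Submodule.span K (Set.range fun w => V.Fw w v) with hS
  have hmem : ∀ w, V.Fw w v ∈ S := fun w => Submodule.subset_span ⟨w, rfl⟩
  have hF : ∀ i, S ≤ S.comap (V.F i) := by
    intro i
    rw [hS, Submodule.span_le]
    rintro _ ⟨w, rfl⟩
    exact hmem (i :: w)
  have hKp : ∀ i, S ≤ S.comap (V.Kp i) := by
    intro i
    rw [hS, Submodule.span_le]
    rintro _ ⟨w, rfl⟩
    change V.Kp i (V.Fw w v) ∈ S
    rw [(Fw_wt V hwt w) i]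
    exact Submodule.smul_mem _ _ (hmem w)
  have hKm : ∀ i, S ≤ S.comap (V.Km i) := by
    intro i
    rw [hS, Submodule.span_le]
    rintro _ ⟨w, rfl⟩
    change V.Km i (V.Fw w v) ∈ S
    rw [Km_wt (Fw_wt V hwt w) i]
    exact Submodule.smul_mem _ _ (hmem w)
  have hEw : ∀ i w, V.E i (V.Fw w v) ∈ S := by
    intro i w
    induction w with
    | nil =>
      rw [Mod.Fw_nil, LinearMap.id_apply, hE]
      exact Submodule.zero_mem _
    | cons j w ih =>
      have h1 := V.ef i j (V.Fw w v)
      rw [sub_eq_iff_eq_add] at h1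
      rw [Mod.Fw_cons, LinearMap.comp_apply, h1]
      refine Submodule.add_mem _ ?_ (hF j ih)
      split_ifs
      · exact Submodule.smul_mem _ _ (Submodule.sub_mem _ (hKp i (hmem w)) (hKm i (hmem w)))
      · exact Submodule.zero_mem _
  have hE' : S ≤ S.comap (V.E i) := by
    rw [hS, Submodule.span_le]
    rintro _ ⟨w, rfl⟩
    exact hEw i w
  exact ⟨hE' hx, hF i hx, hKp i hx, hKm i hx⟩

end T12A

open T12A

theorem isHigh_of_irr (V : Mod C K M) (hirr : V.Irr) {lam : I → ℤ} {v : M} (h0 : v ≠ 0)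
    (hE : ∀ i, V.E i v = 0) (hwt : v ∈ V.wt lam) : IsHigh V lam v := by
  refine ⟨hwt, hE, ?_, h0⟩
  rcases hirr _ (high_stab V hE hwt) with h | h
  · exfalso
    have h1 : v ∈ Submodule.span K (Set.range fun w => V.Fw w v) :=
      Submodule.subset_span ⟨[], rfl⟩
    rw [h] at h1
    exact h0 ((Submodule.mem_bot K).1 h1)
  · exact h

theorem isLow_of_irr (V : Mod C K M) (hirr : V.Irr) {lam : I → ℤ} {v : M} (h0 : v ≠ 0)
    (hF : ∀ i, V.F i v = 0) (hwt : v ∈ V.wt lam) : IsLow V lam v := by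
  have hirr' : V.omega.Irr := by
    intro S hS
    exact hirr S fun i x hx => ⟨(hS i x hx).2.1, (hS i x hx).1, (hS i x hx).2.2.2,
      (hS i x hx).2.2.1⟩
  have h1 := isHigh_of_irr V.omega hirr' h0 (fun i => hF i) (omega_wt hwt)
  refine ⟨hwt, hF, ?_, h0⟩
  have h2 := h1.span
  simp only [Mod.omega_Fw] at h2
  exact h2

theorem isWt_of_isHigh (V : Mod C K M) {lam : I → ℤ} {v : M} (hv : IsHigh V lam v) : V.IsWt :=
  (sp_high hv).isWt

theorem isWt_of_isLow (V : Mod C K M) {lam : I → ℤ} {v : M} (hv : IsLow V lam v) : V.IsWt :=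
  (sp_low hv).isWt

theorem Fw_nilp (V : Mod C K M) [Module.Finite K M] (hV : V.IsWt) :
    ∃ n : ℕ, ∀ w : List I, n ≤ w.length → V.Fw w = 0 := by
  classical
  have hfin := wt_finite V
  refine ⟨hfin.toFinset.card, fun w hw => ?_⟩
  have key : ∀ m, ∀ x ∈ V.wt m, V.Fw w x = 0 := by
    intro m x hx
    by_contra h0
    have h1 : ∀ k, V.Fw (w.drop k) x ≠ 0 := by
      intro k hk
      apply h0
      have h2 := V.Fw_append (w.take k) (w.drop k)
      rw [List.take_append_drop] at h2
      rw [h2, LinearMap.comp_apply, hk, map_zero]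
    have h2 : (Finset.range (w.length + 1)).card ≤ hfin.toFinset.card := by
      refine Finset.card_le_card_of_injOn (fun k => m - C.rt (cw (w.drop k))) ?_ ?_
      · intro k _
        rw [Finset.mem_coe, Set.Finite.mem_toFinset]
        intro h3
        have h4 := Fw_wt V hx (w.drop k)
        change V.wt (m - C.rt (cw (w.drop k))) = ⊥ at h3
        rw [h3] at h4
        exact h1 k ((Submodule.mem_bot K).1 h4)
      · intro k hk l hl hkl
        have h3 : C.rt (cw (w.drop k)) = C.rt (cw (w.drop l)) := sub_right_injective hkl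
        have h4 := rt_inj h3
        have h5 := sum_cw (w.drop k)
        rw [h4, sum_cw, List.length_drop, List.length_drop] at h5
        rw [Finset.mem_coe, Finset.mem_range] at hk hl
        omega
    rw [Finset.card_range] at h2
    omega
  have htop : ∀ x : M, x ∈ LinearMap.ker (V.Fw w) := by
    intro x
    have h1 : (⊤ : Submodule K M) ≤ LinearMap.ker (V.Fw w) := by
      rw [← hV]
      exact iSup_le fun m x hx => key m x hx
    exact h1 Submodule.mem_top
  exact LinearMap.ext fun x => htop x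

theorem exists_low (V : Mod C K M) [Module.Finite K M] (hirr : V.Irr) {lam : I → ℤ} {v : M}
    (hv : IsHigh V lam v) : ∃ (n : I → ℤ) (l : M), IsLow V n l := by
  obtain ⟨n, hn⟩ := Fw_nilp V (isWt_of_isHigh V hv)
  obtain ⟨w, hw, hw'⟩ : ∃ w, V.Fw w v ≠ 0 ∧ ∀ i, V.F i (V.Fw w v) = 0 := by
    by_contra hcon
    push Not at hcon
    have h1 : ∀ k : ℕ, ∃ w : List I, w.length = k ∧ V.Fw w v ≠ 0 := by
      intro k
      induction k with
      | zero => exact ⟨[], rfl, hv.ne⟩
      | succ k ih =>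
        obtain ⟨w, hw, hw0⟩ := ih
        obtain ⟨i, hi⟩ := hcon w hw0
        exact ⟨i :: w, by rw [List.length_cons, hw], hi⟩
    obtain ⟨w, hw, hw0⟩ := h1 n
    exact hw0 (by rw [hn w hw.ge, LinearMap.zero_apply])
  exact ⟨_, _, isLow_of_irr V hirr hw hw' (Fw_wt V hv.wt w)⟩

theorem nondeg_left (V : Mod C K M) (V' : Mod C K N) (hirr : V.Irr) {ev : N →ₗ[K] M →ₗ[K] K}
    (hev : IsPair V' V ev) {l : N} {v : M} (h1 : ev l v ≠ 0) {x : M} (hx : ∀ y, ev y x = 0) :
    x = 0 := by
  have hKp : ∀ i (x : M), (∀ y, ev y x = 0) → ∀ y, ev y (V.Kp i x) = 0 := by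
    intro i x hx y
    have h2 := hev.Kp i (V'.Km i y) x
    rw [V'.kpkm, hx] at h2
    exact h2
  have hKm : ∀ i (x : M), (∀ y, ev y x = 0) → ∀ y, ev y (V.Km i x) = 0 := by
    intro i x hx y
    have h2 := hev.Kp i y (V.Km i x)
    rw [V.kpkm, hx] at h2
    exact h2.symm
  have hE : ∀ i (x : M), (∀ y, ev y x = 0) → ∀ y, ev y (V.E i x) = 0 := by
    intro i x hx y
    have h2 := hev.E i (V'.Km i y) x
    rw [V'.kpkm, hx, zero_add] at h2
    exact h2
  have hF : ∀ i (x : M), (∀ y, ev y x = 0) → ∀ y, ev y (V.F i x) = 0 := by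
    intro i x hx y
    have h2 := hev.F i y x
    rw [hKm i x hx, zero_add] at h2
    exact h2
  have h2 := hirr (LinearMap.ker ev.flip) (by
    intro i x hx
    have hx' : ∀ y, ev y x = 0 := fun y => LinearMap.congr_fun (LinearMap.mem_ker.1 hx) y
    refine ⟨?_, ?_, ?_, ?_⟩
    · exact LinearMap.mem_ker.2 (LinearMap.ext fun y => hE i x hx' y)
    · exact LinearMap.mem_ker.2 (LinearMap.ext fun y => hF i x hx' y)
    · exact LinearMap.mem_ker.2 (LinearMap.ext fun y => hKp i x hx' y)
    · exact LinearMap.mem_ker.2 (LinearMap.ext fun y => hKm i x hx' y))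
  rcases h2 with h2 | h2
  · have h3 : x ∈ LinearMap.ker ev.flip := LinearMap.mem_ker.2 (LinearMap.ext fun y => hx y)
    rw [h2] at h3
    exact (Submodule.mem_bot K).1 h3
  · exfalso
    have h3 : v ∈ LinearMap.ker ev.flip := by rw [h2]; exact Submodule.mem_top
    exact h1 (LinearMap.congr_fun (LinearMap.mem_ker.1 h3) l)

theorem nondeg_right (V : Mod C K M) (V' : Mod C K N) (hirr : V'.Irr) {ev : N →ₗ[K] M →ₗ[K] K}
    (hev : IsPair V' V ev) {l : N} {v : M} (h1 : ev l v ≠ 0) {y : N} (hy : ∀ x, ev y x = 0) :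
    y = 0 := by
  have hKp : ∀ i (y : N), (∀ x, ev y x = 0) → ∀ x, ev (V'.Kp i y) x = 0 := by
    intro i y hy x
    have h2 := hev.Kp i y (V.Km i x)
    rw [V.kpkm, hy] at h2
    exact h2
  have hKm : ∀ i (y : N), (∀ x, ev y x = 0) → ∀ x, ev (V'.Km i y) x = 0 := by
    intro i y hy x
    have h2 := hev.Kp i (V'.Km i y) x
    rw [V'.kpkm, hy] at h2
    exact h2.symm
  have hE : ∀ i (y : N), (∀ x, ev y x = 0) → ∀ x, ev (V'.E i y) x = 0 := by
    intro i y hy x
    have h2 := hev.E i y x
    rw [hKp i y hy, add_zero] at h2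
    exact h2
  have hF : ∀ i (y : N), (∀ x, ev y x = 0) → ∀ x, ev (V'.F i y) x = 0 := by
    intro i y hy x
    have h2 := hev.F i y (V.Kp i x)
    rw [V.kmkp, hy, add_zero] at h2
    exact h2
  have h2 := hirr (LinearMap.ker ev) (by
    intro i y hy
    have hy' : ∀ x, ev y x = 0 := fun x => LinearMap.congr_fun (LinearMap.mem_ker.1 hy) x
    refine ⟨?_, ?_, ?_, ?_⟩
    · exact LinearMap.mem_ker.2 (LinearMap.ext fun x => hE i y hy' x)
    · exact LinearMap.mem_ker.2 (LinearMap.ext fun x => hF i y hy' x)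
    · exact LinearMap.mem_ker.2 (LinearMap.ext fun x => hKp i y hy' x)
    · exact LinearMap.mem_ker.2 (LinearMap.ext fun x => hKm i y hy' x))
  rcases h2 with h2 | h2
  · have h3 : y ∈ LinearMap.ker ev := LinearMap.mem_ker.2 (LinearMap.ext fun x => hy x)
    rw [h2] at h3
    exact (Submodule.mem_bot K).1 h3
  · exfalso
    have h3 : l ∈ LinearMap.ker ev := by rw [h2]; exact Submodule.mem_top
    exact h1 (LinearMap.congr_fun (LinearMap.mem_ker.1 h3) v)

theorem tensor_isRt (V : Mod C K M) (V' : Mod C K N) {lam : I → ℤ} {v : M} {l : N}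
    (hv : IsHigh V lam v) (hl : IsLow V' (-lam) l) : (V.tensor V').IsRt :=
  ((sp_high hv).tensor (sp_low hl)).isRt (k0 := 0) (by rw [rt_zero, add_neg_cancel])

/-- If a triple tensor product of highest weight modules has a nonzero invariant then all its
weights are in the root lattice. -/
theorem tensor3_isRt {M₁ M₂ M₃ : Type*} [AddCommGroup M₁] [Module K M₁] [AddCommGroup M₂]
    [Module K M₂] [AddCommGroup M₃] [Module K M₃] (V₁ : Mod C K M₁) (V₂ : Mod C K M₂)
    (V₃ : Mod C K M₃) {m₁ m₂ m₃ : I → ℤ} {v₁ : M₁} {v₂ : M₂} {v₃ : M₃} (h₁ : IsHigh V₁ m₁ v₁)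
    (h₂ : IsHigh V₂ m₂ v₂) (h₃ : IsHigh V₃ m₃ v₃) {z : (M₁ ⊗[K] M₂) ⊗[K] M₃} (hz : z ≠ 0)
    (hz' : z ∈ ((V₁.tensor V₂).tensor V₃).Inv) : ((V₁.tensor V₂).tensor V₃).IsRt := by
  have h := ((sp_high h₁).tensor (sp_high h₂)).tensor (sp_high h₃)
  have h0 : z ∈ ((V₁.tensor V₂).tensor V₃).wt 0 := by
    intro i
    rw [(hz' i).2.2]
    simp
  obtain ⟨k, hk⟩ := h.mem hz h0
  exact h.isRt (k0 := k) (sub_eq_zero.1 hk.symm)

namespace T12A

theorem qdfac_inv_mem {d : ℤ} (hd : d ≠ 0) (n : ℕ) : (qdfac K d n)⁻¹ ∈ RR K := by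
  induction n with
  | zero =>
    rw [qdfac, inv_one]
    exact Subring.one_mem _
  | succ n ih =>
    rw [qdfac, mul_inv]
    exact Subring.mul_mem _ ih (qd_inv_mem hd (by omega))

theorem latF_F (V : Mod C K M) (v : M) (i : I) {x : M} (hx : x ∈ latF V v) :
    V.F i x ∈ latF V v := by
  refine Submodule.span_induction (p := fun x _ => V.F i x ∈ latF V v) ?_ ?_ ?_ ?_ hx
  · rintro _ ⟨w, rfl⟩
    exact Submodule.subset_span ⟨i :: w, rfl⟩
  · rw [map_zero]
    exact Submodule.zero_mem _
  · intro a b _ _ ha hb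
    rw [map_add]
    exact Submodule.add_mem _ ha hb
  · intro c a _ ha
    have h1 : c • a = (c : K) • a := rfl
    rw [h1, map_smul]
    exact Submodule.smul_mem _ c ha

theorem Fdw_mem (V : Mod C K M) (v : M) (w : List (I × ℕ)) : V.Fdw w v ∈ latF V v := by
  induction w with
  | nil => exact Submodule.subset_span ⟨[], rfl⟩
  | cons p w ih =>
    have h1 : ∀ n : ℕ, (V.F p.1 ^ n) (V.Fdw w v) ∈ latF V v := by
      intro n
      induction n with
      | zero => simpa using ih
      | succ n ihn =>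
        rw [pow_succ', Module.End.mul_apply]
        exact latF_F V v p.1 ihn
    have hd : (C.d p.1 : ℤ) ≠ 0 := by
      have := C.d_pos p.1
      omega
    have h2 := Submodule.smul_mem (latF V v)
      (⟨(qdfac K (C.d p.1) p.2)⁻¹, qdfac_inv_mem hd p.2⟩ : RR K) (h1 p.2)
    rw [Mod.Fdw, LinearMap.comp_apply, Mod.Fd, LinearMap.smul_apply]
    exact h2

theorem Fw_eq_Fdw (V : Mod C K M) (w : List I) : V.Fw w = V.Fdw (w.map fun i => (i, 1)) := by
  induction w with
  | nil => rfl
  | cons i w ih =>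
    have hd : (C.d i : ℤ) ≠ 0 := by
      have := C.d_pos i
      omega
    have h1 : qdfac K (C.d i) 1 = 1 := by
      rw [qdfac, qdfac, one_mul, qd_eq]
      simp only [Nat.cast_zero, zero_add, mul_one]
      exact div_self (hq_ne hd)
    rw [List.map_cons, Mod.Fdw, Mod.Fw_cons, ih, Mod.Fd, h1, inv_one, one_smul, pow_one]

end T12A

theorem latF_of_latA (V : Mod C K M) (v : M) {ι : Type*} {b : ι → M}
    (hb : Submodule.span (AA K) (Set.range b) = V.latA v) :
    Submodule.span (RR K) (Set.range b) = latF V v := by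
  apply le_antisymm
  · rw [Submodule.span_le]
    rintro _ ⟨j, rfl⟩
    have h1 : b j ∈ V.latA v := by
      rw [← hb]
      exact Submodule.subset_span ⟨j, rfl⟩
    refine Submodule.span_induction (p := fun x _ => x ∈ latF V v) ?_ ?_ ?_ ?_ h1
    · rintro _ ⟨w, rfl⟩
      exact Fdw_mem V v w
    · exact Submodule.zero_mem _
    · intro x y _ _ hx hy
      exact Submodule.add_mem _ hx hy
    · intro c x _ hx
      exact Submodule.smul_mem (latF V v) (⟨c, AA_le c.2⟩ : RR K) hx
  · rw [latF, Submodule.span_le]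
    rintro _ ⟨w, rfl⟩
    have h1 : V.Fw w v ∈ V.latA v := by
      rw [Fw_eq_Fdw]
      exact Submodule.subset_span ⟨_, rfl⟩
    rw [← hb] at h1
    refine Submodule.span_induction
      (p := fun x _ => x ∈ Submodule.span (RR K) (Set.range b)) ?_ ?_ ?_ ?_ h1
    · intro x hx
      exact Submodule.subset_span hx
    · exact Submodule.zero_mem _
    · intro x y _ _ hx hy
      exact Submodule.add_mem _ hx hy
    · intro c x _ hx
      exact Submodule.smul_mem _ (⟨c, AA_le c.2⟩ : RR K) hx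

end Pool.Agent.H387.QR
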